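import Pool.Agent.H467Z.Lin.Main

set_option autoImplicit false

namespace Pool.Agent.Results.MP_665542_gt.NoImmersionNearby

open Pool.Agent.H467Z.Lin

/-- Q1 fails for every `g₀`: arbitrarily `C⁰`-close to any smooth metric `g₀` on `T²` there is a
smooth metric `g` with no smooth isometric immersion, hence no smooth isometric embedding,
into `ℝ³`. -/
theorem result (g₀ : ℝ × ℝ → Matrix (Fin 2) (Fin 2) ℝ) (h₀ : IsMetric g₀) (ε : ℝ) (hε : 0 < ε) :
    ∃ g, IsMetric g ∧ (∀ x, relNorm (g₀ x) (g x) ≤ ε) ∧ ¬ ∃ f, IsIsometricImmersion g f :=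
  no_immersion g₀ h₀ ε hε

end Pool.Agent.Results.MP_665542_gt.NoImmersionNearby
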